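import Mathlib

/-!
# MP_290120_co: Pearce's formula for the gunport problem fails for all large boards.
-/

namespace Pool.Agent.Results.MP_290120_co.PearceFails

open Finset

open scoped Classical in
/-- indicator of a proposition, as an integer -/
noncomputable def ind (p : Prop) : ℤ := if p then 1 else 0

theorem ind_t {p : Prop} (h : p) : ind p = 1 := by unfold ind; rw [if_pos h]

theorem ind_f {p : Prop} (h : ¬ p) : ind p = 0 := by unfold ind; rw [if_neg h]

theorem ind_nn (p : Prop) : 0 ≤ ind p := by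
  by_cases h : p
  · rw [ind_t h]; norm_num
  · rw [ind_f h]

theorem ind_le (p : Prop) : ind p ≤ 1 := by
  by_cases h : p
  · rw [ind_t h]
  · rw [ind_f h]; norm_num

/-- an abstract configuration: `H i j` hole at `(i,j)`, `L i j` horizontal domino on
`(i,j),(i,j+1)`, `U i j` vertical domino on `(i,j),(i+1,j)`. -/
structure Conf (m n : ℕ) (H L U : ℕ → ℕ → Prop) : Prop where
  hH : ∀ i j, H i j → i < m ∧ j < n
  hL : ∀ i j, L i j → i < m ∧ j + 1 < n
  hU : ∀ i j, U i j → i + 1 < m ∧ j < n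
  cover : ∀ i j, i < m → j < n →
    H i j ∨ L i j ∨ (∃ k, j = k + 1 ∧ L i k) ∨ U i j ∨ (∃ k, i = k + 1 ∧ U k j)
  HL : ∀ i j, H i j → ¬ L i j
  HR : ∀ i j, H i (j + 1) → ¬ L i j
  HU : ∀ i j, H i j → ¬ U i j
  HB : ∀ i j, H (i + 1) j → ¬ U i j
  LL : ∀ i j, L i j → ¬ L i (j + 1)
  UU : ∀ i j, U i j → ¬ U (i + 1) j
  LU1 : ∀ i j, L i j → ¬ U i j
  LU2 : ∀ i j, L i j → ¬ U i (j + 1)
  LU3 : ∀ i j, L (i + 1) j → ¬ U i j
  LU4 : ∀ i j, L (i + 1) j → ¬ U i (j + 1)
  HH1 : ∀ i j, H i j → ¬ H i (j + 1)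
  HH2 : ∀ i j, H i j → ¬ H (i + 1) j

/-- right half of a horizontal domino -/
def Rt (L : ℕ → ℕ → Prop) (i j : ℕ) : Prop := ∃ k, j = k + 1 ∧ L i k

/-- lower half of a vertical domino -/
def Bt (U : ℕ → ℕ → Prop) (i j : ℕ) : Prop := ∃ k, i = k + 1 ∧ U k j

variable {m n : ℕ} {H L U : ℕ → ℕ → Prop}

theorem Conf.tr (c : Conf m n H L U) :
    Conf n m (fun a b => H b a) (fun a b => U b a) (fun a b => L b a) where
  hH i j h := (c.hH j i h).symm
  hL i j h := (c.hU j i h).symm
  hU i j h := (c.hL j i h).symm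
  cover i j hi hj := by
    rcases c.cover j i hj hi with h | h | ⟨k, h1, h2⟩ | h | ⟨k, h1, h2⟩
    · exact Or.inl h
    · exact Or.inr (Or.inr (Or.inr (Or.inl h)))
    · exact Or.inr (Or.inr (Or.inr (Or.inr ⟨k, h1, h2⟩)))
    · exact Or.inr (Or.inl h)
    · exact Or.inr (Or.inr (Or.inl ⟨k, h1, h2⟩))
  HL i j h := c.HU j i h
  HR i j h := c.HB j i h
  HU i j h := c.HL j i h
  HB i j h := c.HR j i h
  LL i j h := c.UU j i h
  UU i j h := c.LL j i h
  LU1 i j h h' := c.LU1 j i h' h
  LU2 i j h h' := c.LU3 j i h' h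
  LU3 i j h h' := c.LU2 j i h' h
  LU4 i j h h' := c.LU4 j i h' h
  HH1 i j h := c.HH2 j i h
  HH2 i j h := c.HH1 j i h

section
variable (c : Conf m n H L U)
include c

theorem Conf.nHR {i j : ℕ} (h : H i j) : ¬ Rt L i j := by
  rintro ⟨k, rfl, h2⟩; exact c.HR i k h h2
theorem Conf.nHB {i j : ℕ} (h : H i j) : ¬ Bt U i j := by
  rintro ⟨k, rfl, h2⟩; exact c.HB k j h h2
theorem Conf.nLR {i j : ℕ} (h : L i j) : ¬ Rt L i j := by
  rintro ⟨k, rfl, h2⟩; exact c.LL i k h2 h
theorem Conf.nLB {i j : ℕ} (h : L i j) : ¬ Bt U i j := by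
  rintro ⟨k, rfl, h2⟩; exact c.LU3 k j h h2
theorem Conf.nRU {i j : ℕ} (h : Rt L i j) : ¬ U i j := by
  obtain ⟨k, rfl, h2⟩ := h; exact c.LU2 i k h2
theorem Conf.nRB {i j : ℕ} (h : Rt L i j) : ¬ Bt U i j := by
  obtain ⟨k, rfl, h2⟩ := h
  rintro ⟨l, rfl, h3⟩
  exact c.LU4 l k h2 h3
theorem Conf.nUB {i j : ℕ} (h : U i j) : ¬ Bt U i j := by
  rintro ⟨k, rfl, h2⟩; exact c.UU k j h2 h

theorem Conf.cell {i j : ℕ} (hi : i < m) (hj : j < n) :
    ind (H i j) + ind (L i j) + ind (Rt L i j) + ind (U i j) + ind (Bt U i j) = 1 := by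
  rcases c.cover i j hi hj with h | h | h | h | h
  · rw [ind_t h, ind_f (c.HL i j h), ind_f (c.nHR h), ind_f (c.HU i j h), ind_f (c.nHB h)]
    norm_num
  · rw [ind_t h, ind_f (fun h' => c.HL i j h' h), ind_f (c.nLR h), ind_f (c.LU1 i j h),
      ind_f (c.nLB h)]
    norm_num
  · have h : Rt L i j := h
    rw [ind_t h, ind_f (fun h' => c.nHR h' h), ind_f (fun h' => c.nLR h' h), ind_f (c.nRU h),
      ind_f (c.nRB h)]
    norm_num
  · rw [ind_t h, ind_f (fun h' => c.HU i j h' h), ind_f (fun h' => c.LU1 i j h' h),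
      ind_f (fun h' => c.nRU h' h), ind_f (c.nUB h)]
    norm_num
  · have h : Bt U i j := h
    rw [ind_t h, ind_f (fun h' => c.nHB h' h), ind_f (fun h' => c.nLB h' h),
      ind_f (fun h' => c.nRB h' h), ind_f (fun h' => c.nUB h' h)]
    norm_num

end

/-- number of `i < m` with `P i j` -/
noncomputable def cnt (m : ℕ) (P : ℕ → ℕ → Prop) (j : ℕ) : ℤ := ∑ i ∈ range m, ind (P i j)

theorem cnt_nn (m : ℕ) (P : ℕ → ℕ → Prop) (j : ℕ) : 0 ≤ cnt m P j :=
  Finset.sum_nonneg fun _ _ => ind_nn _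

theorem shift_sum (m : ℕ) (f : ℕ → ℤ) (h0 : f 0 = 0) (hm : f m = 0) :
    ∑ i ∈ range m, f i = ∑ i ∈ range m, f (i + 1) := by
  have h1 := Finset.sum_range_succ f m
  have h2 := Finset.sum_range_succ' f m
  linarith

/-- defects on the left side of dominoes starting in column `j+1` -/
noncomputable def da (m : ℕ) (H L U : ℕ → ℕ → Prop) (j : ℕ) : ℤ :=
  ∑ i ∈ range m, (ind (L i (j + 1) ∧ ¬ H i j) + ind (U i (j + 1) ∧ ¬ H i j ∧ ¬ H (i + 1) j))

/-- defects on the right side of dominoes ending in column `j` -/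
noncomputable def db (m : ℕ) (H L U : ℕ → ℕ → Prop) (j : ℕ) : ℤ :=
  ∑ i ∈ range m, (ind (Rt L i j ∧ ¬ H i (j + 1)) +
    ind (U i j ∧ ¬ H i (j + 1) ∧ ¬ H (i + 1) (j + 1)))

theorem da_nn (j : ℕ) : 0 ≤ da m H L U j :=
  Finset.sum_nonneg fun _ _ => add_nonneg (ind_nn _) (ind_nn _)

theorem db_nn (j : ℕ) : 0 ≤ db m H L U j :=
  Finset.sum_nonneg fun _ _ => add_nonneg (ind_nn _) (ind_nn _)

section
variable (c : Conf m n H L U)
include c

theorem Conf.cntB (j : ℕ) : cnt m (Bt U) j = cnt m U j := by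
  unfold cnt
  rw [shift_sum m (fun i => ind (Bt U i j))]
  · refine Finset.sum_congr rfl fun i _ => ?_
    congr 1
    apply propext
    constructor
    · rintro ⟨k, h1, h2⟩
      have : i = k := by omega
      rw [this]; exact h2
    · intro h; exact ⟨i, rfl, h⟩
  · exact ind_f (by rintro ⟨k, h1, _⟩; omega)
  · refine ind_f ?_
    rintro ⟨k, h1, h2⟩
    have := (c.hU k j h2).1
    omega

theorem Conf.col {j : ℕ} (hj : j < n) :
    (m : ℤ) = cnt m H j + cnt m L j + cnt m (Rt L) j + 2 * cnt m U j := by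
  have h1 : (m : ℤ) = ∑ i ∈ range m, (1 : ℤ) := by simp
  have h2 : ∑ i ∈ range m, (1 : ℤ) = ∑ i ∈ range m,
      (ind (H i j) + ind (L i j) + ind (Rt L i j) + ind (U i j) + ind (Bt U i j)) :=
    Finset.sum_congr rfl fun i hi => (c.cell (Finset.mem_range.1 hi) hj).symm
  have h3 := c.cntB j
  rw [Finset.sum_add_distrib, Finset.sum_add_distrib, Finset.sum_add_distrib,
    Finset.sum_add_distrib] at h2
  rw [h1, h2]
  unfold cnt at *
  linarith

theorem Conf.eqA {j : ℕ} (hj : j + 1 < n) :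
    cnt m L (j + 1) + cnt m U (j + 1) = cnt m H j + da m H L U j := by
  have h1 : cnt m H j = ∑ i ∈ range m, (ind (H i j ∧ L i (j + 1)) + ind (H i j ∧ U i (j + 1))) +
      ∑ i ∈ range m, ind (H i j ∧ Bt U i (j + 1)) := by
    unfold cnt
    rw [← Finset.sum_add_distrib]
    refine Finset.sum_congr rfl fun i hi => ?_
    rw [Finset.mem_range] at hi
    by_cases h : H i j
    · have hc := c.cell hi hj
      have hR : ¬ Rt L i (j + 1) := by
        rintro ⟨k, h1, h2⟩
        have : j = k := by omega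
        subst this
        exact c.HL i j h h2
      rw [ind_f (c.HH1 i j h), ind_f hR] at hc
      have e1 : (H i j ∧ L i (j + 1)) = L i (j + 1) := propext ⟨fun x => x.2, fun x => ⟨h, x⟩⟩
      have e2 : (H i j ∧ U i (j + 1)) = U i (j + 1) := propext ⟨fun x => x.2, fun x => ⟨h, x⟩⟩
      have e3 : (H i j ∧ Bt U i (j + 1)) = Bt U i (j + 1) :=
        propext ⟨fun x => x.2, fun x => ⟨h, x⟩⟩
      rw [e1, e2, e3, ind_t h]
      linarith
    · rw [ind_f h, ind_f (fun x => h x.1), ind_f (fun x => h x.1), ind_f (fun x => h x.1)]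
      norm_num
  have h2 : ∑ i ∈ range m, ind (H i j ∧ Bt U i (j + 1)) =
      ∑ i ∈ range m, ind (H (i + 1) j ∧ U i (j + 1)) := by
    rw [shift_sum m (fun i => ind (H i j ∧ Bt U i (j + 1)))]
    · refine Finset.sum_congr rfl fun i _ => ?_
      congr 1
      apply propext
      constructor
      · rintro ⟨h0, k, h1, h2⟩
        have : i = k := by omega
        rw [this] at h0 ⊢; exact ⟨h0, h2⟩
      · rintro ⟨h0, h⟩; exact ⟨h0, i, rfl, h⟩
    · exact ind_f (by rintro ⟨_, k, h1, _⟩; omega)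
    · refine ind_f ?_
      rintro ⟨h0, _⟩
      have := (c.hH m j h0).1
      omega
  rw [h1, h2]
  unfold cnt da
  rw [← Finset.sum_add_distrib, ← Finset.sum_add_distrib, ← Finset.sum_add_distrib]
  refine Finset.sum_congr rfl fun i _ => ?_
  have h4 := c.HH2 i j
  unfold ind
  by_cases a1 : L i (j + 1) <;> by_cases a2 : U i (j + 1) <;> by_cases a3 : H i j <;>
    by_cases a4 : H (i + 1) j <;> simp_all

theorem Conf.eqB {j : ℕ} (hj : j + 1 < n) :
    cnt m U j + cnt m (Rt L) j = cnt m H (j + 1) + db m H L U j := by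
  have h1 : cnt m H (j + 1) =
      ∑ i ∈ range m, (ind (H i (j + 1) ∧ Rt L i j) + ind (H i (j + 1) ∧ U i j)) +
      ∑ i ∈ range m, ind (H i (j + 1) ∧ Bt U i j) := by
    unfold cnt
    rw [← Finset.sum_add_distrib]
    refine Finset.sum_congr rfl fun i hi => ?_
    rw [Finset.mem_range] at hi
    by_cases h : H i (j + 1)
    · have hc := c.cell hi (by omega : j < n)
      have hL : ¬ L i j := c.HR i j h
      rw [ind_f (fun x => c.HH1 i j x h), ind_f hL] at hc
      have e1 : (H i (j + 1) ∧ Rt L i j) = Rt L i j := propext ⟨fun x => x.2, fun x => ⟨h, x⟩⟩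
      have e2 : (H i (j + 1) ∧ U i j) = U i j := propext ⟨fun x => x.2, fun x => ⟨h, x⟩⟩
      have e3 : (H i (j + 1) ∧ Bt U i j) = Bt U i j :=
        propext ⟨fun x => x.2, fun x => ⟨h, x⟩⟩
      rw [e1, e2, e3, ind_t h]
      linarith
    · rw [ind_f h, ind_f (fun x => h x.1), ind_f (fun x => h x.1), ind_f (fun x => h x.1)]
      norm_num
  have h2 : ∑ i ∈ range m, ind (H i (j + 1) ∧ Bt U i j) =
      ∑ i ∈ range m, ind (H (i + 1) (j + 1) ∧ U i j) := by
    rw [shift_sum m (fun i => ind (H i (j + 1) ∧ Bt U i j))]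
    · refine Finset.sum_congr rfl fun i _ => ?_
      congr 1
      apply propext
      constructor
      · rintro ⟨h0, k, h1, h2⟩
        have : i = k := by omega
        rw [this] at h0 ⊢; exact ⟨h0, h2⟩
      · rintro ⟨h0, h⟩; exact ⟨h0, i, rfl, h⟩
    · exact ind_f (by rintro ⟨_, k, h1, _⟩; omega)
    · refine ind_f ?_
      rintro ⟨h0, _⟩
      have := (c.hH m (j + 1) h0).1
      omega
  rw [h1, h2]
  unfold cnt db
  rw [← Finset.sum_add_distrib, ← Finset.sum_add_distrib, ← Finset.sum_add_distrib]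
  refine Finset.sum_congr rfl fun i _ => ?_
  have h4 := c.HH2 i (j + 1)
  unfold ind
  by_cases a1 : Rt L i j <;> by_cases a2 : U i j <;> by_cases a3 : H i (j + 1) <;>
    by_cases a4 : H (i + 1) (j + 1) <;> simp_all

omit c in
theorem cntR0 : cnt m (Rt L) 0 = 0 := by
  unfold cnt
  refine Finset.sum_eq_zero fun i _ => ind_f ?_
  rintro ⟨k, h, _⟩; omega

omit c in
theorem cntRs (j : ℕ) : cnt m (Rt L) (j + 1) = cnt m L j := by
  unfold cnt
  refine Finset.sum_congr rfl fun i _ => ?_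
  congr 1
  apply propext
  constructor
  · rintro ⟨k, h1, h2⟩
    have : j = k := by omega
    rw [this]; exact h2
  · intro h; exact ⟨j, rfl, h⟩

/-- conservation of the number of vertical dominoes -/
theorem Conf.cons {j : ℕ} (hj : j + 1 < n) :
    cnt m U (j + 1) = cnt m U j - da m H L U j + db m H L U j := by
  have h1 := c.eqA hj
  have h2 := c.eqB hj
  have h3 := c.col (by omega : j < n)
  have h4 := c.col hj
  have h5 := cntRs (m := m) (L := L) j
  linarith

theorem Conf.holes_le {j : ℕ} (hj : j < n) :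
    cnt m H j ≤ cnt m L j + cnt m (Rt L) j + cnt m U j + 1 := by
  have key : ∀ i ∈ range m, ind (H i j) ≤
      ind (L (i + 1) j) + ind (Rt L (i + 1) j) + ind (U (i + 1) j) + ind (i + 1 = m) := by
    intro i hi
    rw [Finset.mem_range] at hi
    have n1 := ind_nn (L (i + 1) j)
    have n2 := ind_nn (Rt L (i + 1) j)
    have n3 := ind_nn (U (i + 1) j)
    have n4 := ind_nn (i + 1 = m)
    by_cases h : H i j
    · by_cases h' : i + 1 = m
      · rw [ind_t h, ind_t h']; linarith
      · have hc := c.cell (by omega : i + 1 < m) hj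
        have hB : ¬ Bt U (i + 1) j := by
          rintro ⟨k, h1, h2⟩
          have : i = k := by omega
          subst this
          exact c.HU i j h h2
        rw [ind_f (c.HH2 i j h), ind_f hB] at hc
        rw [ind_t h]; linarith
    · rw [ind_f h]; linarith
  have h1 := Finset.sum_le_sum key
  rw [Finset.sum_add_distrib, Finset.sum_add_distrib, Finset.sum_add_distrib] at h1
  have sh : ∀ P : ℕ → ℕ → Prop, (¬ P m j) → ∑ i ∈ range m, ind (P (i + 1) j) ≤ cnt m P j := by
    intro P hP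
    have e1 := Finset.sum_range_succ (fun i => ind (P i j)) m
    have e2 := Finset.sum_range_succ' (fun i => ind (P i j)) m
    have e3 := ind_nn (P 0 j)
    have e4 := ind_f hP
    unfold cnt
    linarith
  have s1 := sh L (fun h => by have := (c.hL m j h).1; omega)
  have s2 := sh (Rt L) (fun h => by
    obtain ⟨k, h1, h2⟩ := h
    have := (c.hL m k h2).1; omega)
  have s3 := sh U (fun h => by have := (c.hU m j h).1; omega)
  have s4 : ∑ i ∈ range m, ind (i + 1 = m) ≤ 1 := by
    rcases Nat.eq_zero_or_pos m with h0 | h0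
    · subst h0; simp
    · rw [Finset.sum_eq_single (m - 1)]
      · exact ind_le _
      · intro b hb hb'
        rw [Finset.mem_range] at hb
        exact ind_f (by omega)
      · intro h; exact absurd (Finset.mem_range.2 (by omega)) h
  have : cnt m H j = ∑ i ∈ range m, ind (H i j) := rfl
  linarith

/-- total number over the board -/
noncomputable def tot (m n : ℕ) (P : ℕ → ℕ → Prop) : ℤ := ∑ j ∈ range n, cnt m P j

omit c in
theorem tot_comm (m n : ℕ) (P : ℕ → ℕ → Prop) :
    tot m n P = tot n m (fun a b => P b a) := by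
  unfold tot cnt
  rw [Finset.sum_comm]

theorem Conf.cells : (m * n : ℤ) = tot m n H + 2 * tot m n L + 2 * tot m n U := by
  have h1 : ∑ j ∈ range n, (m : ℤ) = ∑ j ∈ range n,
      (cnt m H j + cnt m L j + cnt m (Rt L) j + 2 * cnt m U j) :=
    Finset.sum_congr rfl fun j hj => c.col (Finset.mem_range.1 hj)
  rw [Finset.sum_add_distrib, Finset.sum_add_distrib, Finset.sum_add_distrib,
    ← Finset.mul_sum, Finset.sum_const, Finset.card_range, nsmul_eq_mul] at h1
  have h2 : ∑ j ∈ range n, cnt m (Rt L) j = tot m n L := by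
    have h0 := cntR0 (m := m) (L := L)
    rcases Nat.eq_zero_or_pos n with hn | hn
    · subst hn; simp [tot]
    · obtain ⟨n', rfl⟩ := Nat.exists_eq_succ_of_ne_zero (by omega : n ≠ 0)
      unfold tot
      rw [Nat.succ_eq_add_one, Finset.sum_range_succ', h0, Finset.sum_range_succ]
      have e1 : ∑ k ∈ range n', cnt m (Rt L) (k + 1) = ∑ k ∈ range n', cnt m L k :=
        Finset.sum_congr rfl fun k _ => cntRs k
      have e2 : cnt m L n' = 0 := by
        unfold cnt
        refine Finset.sum_eq_zero fun i _ => ind_f ?_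
        intro h
        have := (c.hL i n' h).2
        omega
      rw [e1, e2]
  unfold tot at *
  linarith

/-- total defects in the horizontal direction -/
noncomputable def dtot (m n : ℕ) (H L U : ℕ → ℕ → Prop) : ℤ :=
  ∑ j ∈ range (n - 1), (da m H L U j + db m H L U j)

theorem Conf.dtot_le (hn : 0 < n) :
    dtot m n H L U ≤ 2 * (tot m n L + tot m n U - tot m n H) + 2 := by
  obtain ⟨n', rfl⟩ := Nat.exists_eq_succ_of_ne_zero (by omega : n ≠ 0)
  have e0 : n'.succ - 1 = n' := by omega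
  have h1 : dtot m n'.succ H L U = ∑ j ∈ range n', (cnt m L (j + 1) + cnt m U (j + 1) -
      cnt m H j + cnt m U j + cnt m (Rt L) j - cnt m H (j + 1)) := by
    unfold dtot
    rw [e0]
    refine Finset.sum_congr rfl fun j hj => ?_
    rw [Finset.mem_range] at hj
    have a := c.eqA (by omega : j + 1 < n'.succ)
    have b := c.eqB (by omega : j + 1 < n'.succ)
    linarith
  have e2 : cnt m L n' = 0 := by
    unfold cnt
    refine Finset.sum_eq_zero fun i _ => ind_f ?_
    intro h
    have := (c.hL i n' h).2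
    omega
  simp only [Finset.sum_add_distrib, Finset.sum_sub_distrib] at h1
  have f1 := Finset.sum_range_succ' (cnt m L) n'
  have f2 := Finset.sum_range_succ' (cnt m U) n'
  have f3 := Finset.sum_range_succ (cnt m H) n'
  have f4 := Finset.sum_range_succ (cnt m U) n'
  have f5 : ∑ j ∈ range n', cnt m (Rt L) j + cnt m (Rt L) n' = ∑ j ∈ range n', cnt m L j := by
    rw [← Finset.sum_range_succ, Finset.sum_range_succ', cntR0 (m := m) (L := L), add_zero]
    exact Finset.sum_congr rfl fun k _ => cntRs k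
  have f6 := Finset.sum_range_succ (cnt m L) n'
  have f7 := Finset.sum_range_succ' (cnt m H) n'
  have g1 := c.holes_le (by omega : 0 < n'.succ)
  have g2 := c.holes_le (by omega : n' < n'.succ)
  have g3 := cntR0 (m := m) (L := L)
  have t1 : tot m n'.succ L = ∑ j ∈ range (n' + 1), cnt m L j := rfl
  have t2 : tot m n'.succ U = ∑ j ∈ range (n' + 1), cnt m U j := rfl
  have t3 : tot m n'.succ H = ∑ j ∈ range (n' + 1), cnt m H j := rfl
  linarith

theorem Conf.cntU_ge (j : ℕ) (hj : j < n) :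
    cnt m U 0 - dtot m n H L U ≤ cnt m U j := by
  have h1 : ∀ j : ℕ, j < n → cnt m U 0 - ∑ k ∈ range j, (da m H L U k + db m H L U k) ≤
      cnt m U j := by
    intro j
    induction j with
    | zero => intro _; simp
    | succ j ih =>
      intro hj
      have h2 := ih (by omega)
      have h3 := c.cons hj
      have h4 := db_nn (m := m) (H := H) (L := L) (U := U) j
      rw [Finset.sum_range_succ]
      linarith
  have h2 := h1 j hj
  have h3 : ∑ k ∈ range j, (da m H L U k + db m H L U k) ≤ dtot m n H L U := by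
    unfold dtot
    refine Finset.sum_le_sum_of_subset_of_nonneg ?_ fun i _ _ => add_nonneg (da_nn i) (db_nn i)
    intro x hx
    rw [Finset.mem_range] at hx ⊢
    omega
  linarith

end

/-- `PL x y`: the horizontal domino at `(x,y)` has a hole on each side where the board
continues -/
def PL (m n : ℕ) (H : ℕ → ℕ → Prop) (x y : ℕ) : Prop :=
  (∀ k, y = k + 1 → H x k) ∧ (y + 2 < n → H x (y + 2)) ∧
    (∀ k, x = k + 1 → H k y ∨ H k (y + 1)) ∧ (x + 1 < m → H (x + 1) y ∨ H (x + 1) (y + 1))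

/-- the same for the vertical domino at `(x,y)` -/
def PU (m n : ℕ) (H : ℕ → ℕ → Prop) (x y : ℕ) : Prop :=
  (∀ k, x = k + 1 → H k y) ∧ (x + 2 < m → H (x + 2) y) ∧
    (∀ k, y = k + 1 → H x k ∨ H (x + 1) k) ∧ (y + 1 < n → H x (y + 1) ∨ H (x + 1) (y + 1))

/-- number of imperfect dominoes with top row `x` -/
noncomputable def beta (m n : ℕ) (H L U : ℕ → ℕ → Prop) (x : ℕ) : ℤ :=
  ∑ y ∈ range n, (ind (L x y ∧ ¬ PL m n H x y) + ind (U x y ∧ ¬ PU m n H x y))

theorem beta_nn (x : ℕ) : 0 ≤ beta m n H L U x :=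
  Finset.sum_nonneg fun _ _ => add_nonneg (ind_nn _) (ind_nn _)

section
variable (c : Conf m n H L U)
include c

theorem Conf.beta_zero {x : ℕ} (hx : m ≤ x) : beta m n H L U x = 0 := by
  unfold beta
  refine Finset.sum_eq_zero fun y _ => ?_
  rw [ind_f, ind_f]
  · norm_num
  · rintro ⟨h, _⟩
    have := (c.hU x y h).1
    omega
  · rintro ⟨h, _⟩
    have := (c.hL x y h).1
    omega

theorem Conf.beta_clean {x : ℕ} (hx : beta m n H L U x = 0) :
    (∀ y, L x y → PL m n H x y) ∧ (∀ y, U x y → PU m n H x y) := by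
  have h1 : ∀ y ∈ range n, ind (L x y ∧ ¬ PL m n H x y) + ind (U x y ∧ ¬ PU m n H x y) = 0 := by
    apply (Finset.sum_eq_zero_iff_of_nonneg ?_).1 hx
    intro y _
    exact add_nonneg (ind_nn _) (ind_nn _)
  constructor
  · intro y hy
    have h2 := h1 y (Finset.mem_range.2 (by have := (c.hL x y hy).2; omega))
    by_contra h3
    rw [ind_t ⟨hy, h3⟩] at h2
    have := ind_nn (U x y ∧ ¬ PU m n H x y)
    linarith
  · intro y hy
    have h2 := h1 y (Finset.mem_range.2 (c.hU x y hy).2)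
    by_contra h3
    have h4 := ind_t (show U x y ∧ ¬ PU m n H x y from ⟨hy, h3⟩)
    have := ind_nn (L x y ∧ ¬ PL m n H x y)
    linarith

/-- propagation: a horizontal domino at the left side, away from imperfect dominoes, forces
`3 ∣ n` -/
theorem Conf.prop {k : ℕ} (hk : k + 3 < m) (h0 : L (k + 2) 0)
    (b0 : beta m n H L U k = 0) (b1 : beta m n H L U (k + 1) = 0)
    (b2 : beta m n H L U (k + 2) = 0) (b3 : beta m n H L U (k + 3) = 0) : 3 ∣ n := by
  obtain ⟨l0, u0⟩ := c.beta_clean b0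
  obtain ⟨l1, u1⟩ := c.beta_clean b1
  obtain ⟨l2, u2⟩ := c.beta_clean b2
  obtain ⟨l3, u3⟩ := c.beta_clean b3
  -- start
  have st1 : H (k + 1) 0 := by
    have hn : 0 < n := by have := (c.hL _ _ h0).2; omega
    rcases c.cover (k + 1) 0 (by omega) hn with h | h | ⟨q, h, _⟩ | h | ⟨q, h, h'⟩
    · exact h
    · exfalso
      rcases (l2 0 h0).2.2.1 (k + 1) rfl with h' | h'
      · exact c.HL _ _ h' h
      · exact c.HR _ _ h' h
    · omega
    · exact absurd h (c.LU3 _ _ h0)
    · exfalso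
      have e : q = k := by omega
      subst e
      have := (u0 0 h').2.1 (by omega)
      exact c.HL _ _ this h0
  have st2 : H (k + 3) 0 := by
    have hn : 0 < n := by have := (c.hL _ _ h0).2; omega
    rcases c.cover (k + 3) 0 (by omega) hn with h | h | ⟨q, h, _⟩ | h | ⟨q, h, h'⟩
    · exact h
    · exfalso
      rcases (l2 0 h0).2.2.2 (by omega) with h' | h'
      · exact c.HL _ _ h' h
      · exact c.HR _ _ h' h
    · omega
    · exfalso
      have := (u3 0 h).1 (k + 2) rfl
      exact c.HL _ _ this h0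
    · exfalso
      have e : q = k + 2 := by omega
      subst e
      exact c.LU1 _ _ h0 h'
  -- step
  have step : ∀ y, L (k + 2) y → H (k + 1) y → H (k + 3) y →
      y + 2 < n ∧ (y + 3 < n → L (k + 2) (y + 3) ∧ H (k + 1) (y + 3) ∧ H (k + 3) (y + 3)) := by
    intro y hL h1 h3
    have hy := (c.hL _ _ hL).2
    have s1 : L (k + 1) (y + 1) := by
      rcases c.cover (k + 1) (y + 1) (by omega) hy with h | h | ⟨q, h, h'⟩ | h | ⟨q, h, h'⟩
      · exact absurd h (c.HH1 _ _ h1)
      · exact h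
      · exfalso
        have e : q = y := by omega
        subst e
        exact c.HL _ _ h1 h'
      · exact absurd h (c.LU4 _ _ hL)
      · exfalso
        have e : q = k := by omega
        subst e
        have := (u0 _ h').2.1 (by omega)
        exact c.HR _ _ this hL
    have s3 : L (k + 3) (y + 1) := by
      rcases c.cover (k + 3) (y + 1) (by omega) hy with h | h | ⟨q, h, h'⟩ | h | ⟨q, h, h'⟩
      · exact absurd h (c.HH1 _ _ h3)
      · exact h
      · exfalso
        have e : q = y := by omega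
        subst e
        exact c.HL _ _ h3 h'
      · exfalso
        have := (u3 _ h).1 (k + 2) rfl
        exact c.HR _ _ this hL
      · exfalso
        have e : q = k + 2 := by omega
        subst e
        exact c.LU2 _ _ hL h'
    have hy2 := (c.hL _ _ s1).2
    refine ⟨by omega, fun hy3 => ?_⟩
    have t1 : H (k + 1) (y + 3) := (l1 _ s1).2.1 hy3
    have t3 : H (k + 3) (y + 3) := (l3 _ s3).2.1 hy3
    have t2 : H (k + 2) (y + 2) := (l2 _ hL).2.1 (by omega)
    refine ⟨?_, t1, t3⟩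
    rcases c.cover (k + 2) (y + 3) (by omega) hy3 with h | h | ⟨q, h, h'⟩ | h | ⟨q, h, h'⟩
    · exact absurd h (c.HH1 _ _ t2)
    · exact h
    · exfalso
      have e : q = y + 2 := by omega
      subst e
      exact c.HL _ _ t2 h'
    · exfalso
      exact c.HB _ _ t3 h
    · exfalso
      have e : q = k + 1 := by omega
      subst e
      exact c.HU _ _ t1 h'
  have all : ∀ t, 3 * t < n → L (k + 2) (3 * t) ∧ H (k + 1) (3 * t) ∧ H (k + 3) (3 * t) := by
    intro t
    induction t with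
    | zero => intro _; exact ⟨h0, st1, st2⟩
    | succ t ih =>
      intro ht
      obtain ⟨a, b, d⟩ := ih (by omega)
      have := (step (3 * t) a b d).2 (by omega)
      have e : 3 * (t + 1) = 3 * t + 3 := by ring
      rw [e]; exact this
  by_contra hn
  obtain ⟨a, b, d⟩ := all (n / 3) (by omega)
  have := (step _ a b d).1
  omega

theorem Conf.cntL0 (hn : ¬ 3 ∣ n) :
    cnt m L 0 ≤ 3 + 4 * ∑ x ∈ range m, beta m n H L U x := by
  have hpos : 0 ≤ ∑ x ∈ range m, beta m n H L U x :=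
    Finset.sum_nonneg fun x _ => beta_nn x
  rcases Nat.lt_or_ge m 3 with hm | hm
  · have : cnt m L 0 ≤ m := by
      unfold cnt
      calc ∑ i ∈ range m, ind (L i 0) ≤ ∑ i ∈ range m, (1 : ℤ) :=
            Finset.sum_le_sum fun i _ => ind_le _
        _ = m := by simp
    have : (m : ℤ) ≤ 2 := by omega
    linarith
  · obtain ⟨m', rfl⟩ : ∃ m', m = m' + 3 := ⟨m - 3, by omega⟩
    have e1 : cnt (m' + 3) L 0 = ∑ k ∈ range m', ind (L (k + 2) 0) + ind (L 0 0) + ind (L 1 0) +
        ind (L (m' + 2) 0) := by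
      unfold cnt
      rw [Finset.sum_range_succ, Finset.sum_range_succ', Finset.sum_range_succ']
      ring
    have key : ∀ k ∈ range m', ind (L (k + 2) 0) ≤ beta (m' + 3) n H L U k +
        beta (m' + 3) n H L U (k + 1) + beta (m' + 3) n H L U (k + 2) +
        beta (m' + 3) n H L U (k + 3) := by
      intro k hk
      rw [Finset.mem_range] at hk
      have n0 := beta_nn (m := m' + 3) (n := n) (H := H) (L := L) (U := U) k
      have n1 := beta_nn (m := m' + 3) (n := n) (H := H) (L := L) (U := U) (k + 1)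
      have n2 := beta_nn (m := m' + 3) (n := n) (H := H) (L := L) (U := U) (k + 2)
      have n3 := beta_nn (m := m' + 3) (n := n) (H := H) (L := L) (U := U) (k + 3)
      by_cases h : L (k + 2) 0
      · rw [ind_t h]
        by_contra hlt
        push Not at hlt
        exact hn (c.prop (by omega) h (by omega) (by omega) (by omega) (by omega))
      · rw [ind_f h]; linarith
    have h2 := Finset.sum_le_sum key
    rw [Finset.sum_add_distrib, Finset.sum_add_distrib, Finset.sum_add_distrib] at h2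
    have sh : ∀ q, q ≤ 3 → ∑ k ∈ range m', beta (m' + 3) n H L U (k + q) ≤
        ∑ x ∈ range (m' + 3), beta (m' + 3) n H L U x := by
      intro q hq
      rw [← Finset.sum_image (f := beta (m' + 3) n H L U) (g := fun k => k + q)
        (s := range m') (fun a _ b _ h => by simpa using h)]
      refine Finset.sum_le_sum_of_subset_of_nonneg ?_ fun x _ _ => beta_nn x
      intro x hx
      rw [Finset.mem_image] at hx
      obtain ⟨a, ha, rfl⟩ := hx
      rw [Finset.mem_range] at ha ⊢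
      omega
    have s0 := sh 0 (by norm_num)
    have s1 := sh 1 (by norm_num)
    have s2 := sh 2 (by norm_num)
    have s3 := sh 3 (by norm_num)
    simp only [add_zero] at s0
    have i1 := ind_le (L 0 0)
    have i2 := ind_le (L 1 0)
    have i3 := ind_le (L (m' + 2) 0)
    linarith

end

/-- all defects of the horizontal direction, listed by the domino -/
noncomputable def Q (m n : ℕ) (H L U : ℕ → ℕ → Prop) : ℤ :=
  ∑ x ∈ range m, ∑ y ∈ range n, (ind (L x y ∧ ∃ k, y = k + 1 ∧ ¬ H x k) +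
    ind (L x y ∧ y + 2 < n ∧ ¬ H x (y + 2)) +
    ind (U x y ∧ ∃ k, y = k + 1 ∧ ¬ H x k ∧ ¬ H (x + 1) k) +
    ind (U x y ∧ y + 1 < n ∧ ¬ H x (y + 1) ∧ ¬ H (x + 1) (y + 1)))

theorem Q_le : Q m n H L U ≤ dtot m n H L U := by
  rcases Nat.eq_zero_or_pos n with hn | hn
  · subst hn; simp [Q, dtot]
  obtain ⟨n', rfl⟩ := Nat.exists_eq_succ_of_ne_zero (by omega : n ≠ 0)
  have e0 : n'.succ - 1 = n' := by omega
  unfold Q dtot da db
  rw [e0]
  simp_rw [← Finset.sum_add_distrib]
  rw [Finset.sum_comm (s := range n')]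
  refine Finset.sum_le_sum fun x _ => ?_
  simp only [Finset.sum_add_distrib]
  -- four comparisons
  have t1 : ∑ y ∈ range n'.succ, ind (L x y ∧ ∃ k, y = k + 1 ∧ ¬ H x k) =
      ∑ y ∈ range n', ind (L x (y + 1) ∧ ¬ H x y) := by
    rw [Nat.succ_eq_add_one, Finset.sum_range_succ', ind_f (by
      rintro ⟨_, k, h, _⟩; omega), add_zero]
    refine Finset.sum_congr rfl fun y _ => ?_
    congr 1
    apply propext
    constructor
    · rintro ⟨h1, k, h2, h3⟩
      have : y = k := by omega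
      rw [this] at h1 ⊢; exact ⟨h1, h3⟩
    · rintro ⟨h1, h2⟩; exact ⟨h1, y, rfl, h2⟩
  have t3 : ∑ y ∈ range n'.succ, ind (U x y ∧ ∃ k, y = k + 1 ∧ ¬ H x k ∧ ¬ H (x + 1) k) =
      ∑ y ∈ range n', ind (U x (y + 1) ∧ ¬ H x y ∧ ¬ H (x + 1) y) := by
    rw [Nat.succ_eq_add_one, Finset.sum_range_succ', ind_f (by
      rintro ⟨_, k, h, _⟩; omega), add_zero]
    refine Finset.sum_congr rfl fun y _ => ?_
    congr 1
    apply propext
    constructor
    · rintro ⟨h1, k, h2, h3⟩
      have : y = k := by omega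
      rw [this] at h1 ⊢; exact ⟨h1, h3⟩
    · rintro ⟨h1, h2⟩; exact ⟨h1, y, rfl, h2⟩
  have t4 : ∑ y ∈ range n'.succ, ind (U x y ∧ y + 1 < n'.succ ∧ ¬ H x (y + 1) ∧
      ¬ H (x + 1) (y + 1)) =
      ∑ y ∈ range n', ind (U x y ∧ ¬ H x (y + 1) ∧ ¬ H (x + 1) (y + 1)) := by
    rw [Nat.succ_eq_add_one, Finset.sum_range_succ, ind_f (by
      rintro ⟨_, h, _⟩; omega), add_zero]
    refine Finset.sum_congr rfl fun y hy => ?_
    rw [Finset.mem_range] at hy
    congr 1
    apply propext
    constructor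
    · rintro ⟨h1, _, h3⟩; exact ⟨h1, h3⟩
    · rintro ⟨h1, h2⟩; exact ⟨h1, by omega, h2⟩
  have t2 : ∑ y ∈ range n'.succ, ind (L x y ∧ y + 2 < n'.succ ∧ ¬ H x (y + 2)) =
      ∑ y ∈ range n', ind (Rt L x y ∧ ¬ H x (y + 1)) := by
    have s1 := shift_sum n'.succ (fun y => ind (Rt L x y ∧ y + 1 < n'.succ ∧ ¬ H x (y + 1)))
      (ind_f (by rintro ⟨⟨k, h, _⟩, _⟩; omega)) (ind_f (by rintro ⟨_, h, _⟩; omega))
    have s2 : ∑ y ∈ range n'.succ, ind (L x y ∧ y + 2 < n'.succ ∧ ¬ H x (y + 2)) =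
        ∑ y ∈ range n'.succ, ind (Rt L x (y + 1) ∧ y + 1 + 1 < n'.succ ∧
          ¬ H x (y + 1 + 1)) := by
      refine Finset.sum_congr rfl fun y _ => ?_
      congr 1
      apply propext
      constructor
      · rintro ⟨h1, h2, h3⟩; exact ⟨⟨y, rfl, h1⟩, h2, h3⟩
      · rintro ⟨⟨k, h1, h2⟩, h3, h4⟩
        have : y = k := by omega
        subst this
        exact ⟨h2, h3, h4⟩
    rw [s2, ← s1, Nat.succ_eq_add_one, Finset.sum_range_succ, ind_f (by
      rintro ⟨_, h, _⟩; omega), add_zero]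
    refine Finset.sum_congr rfl fun y hy => ?_
    rw [Finset.mem_range] at hy
    congr 1
    apply propext
    constructor
    · rintro ⟨h1, _, h3⟩; exact ⟨h1, h3⟩
    · rintro ⟨h1, h2⟩; exact ⟨h1, by omega, h2⟩
  rw [t1, t2, t3, t4]
  linarith

theorem beta_sum_le : ∑ x ∈ range m, beta m n H L U x ≤ Q m n H L U +
    Q n m (fun a b => H b a) (fun a b => U b a) (fun a b => L b a) := by
  unfold Q beta
  rw [Finset.sum_comm (s := range n), ← Finset.sum_add_distrib]
  refine Finset.sum_le_sum fun x _ => ?_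
  rw [← Finset.sum_add_distrib]
  refine Finset.sum_le_sum fun y _ => ?_
  have a1 := ind_nn (L x y ∧ ∃ k, y = k + 1 ∧ ¬ H x k)
  have a2 := ind_nn (L x y ∧ y + 2 < n ∧ ¬ H x (y + 2))
  have a3 := ind_nn (U x y ∧ ∃ k, y = k + 1 ∧ ¬ H x k ∧ ¬ H (x + 1) k)
  have a4 := ind_nn (U x y ∧ y + 1 < n ∧ ¬ H x (y + 1) ∧ ¬ H (x + 1) (y + 1))
  have b1 := ind_nn (U x y ∧ ∃ k, x = k + 1 ∧ ¬ H k y)
  have b2 := ind_nn (U x y ∧ x + 2 < m ∧ ¬ H (x + 2) y)
  have b3 := ind_nn (L x y ∧ ∃ k, x = k + 1 ∧ ¬ H k y ∧ ¬ H k (y + 1))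
  have b4 := ind_nn (L x y ∧ x + 1 < m ∧ ¬ H (x + 1) y ∧ ¬ H (x + 1) (y + 1))
  have k1 : ind (L x y ∧ ¬ PL m n H x y) ≤ ind (L x y ∧ ∃ k, y = k + 1 ∧ ¬ H x k) +
      ind (L x y ∧ y + 2 < n ∧ ¬ H x (y + 2)) +
      ind (L x y ∧ ∃ k, x = k + 1 ∧ ¬ H k y ∧ ¬ H k (y + 1)) +
      ind (L x y ∧ x + 1 < m ∧ ¬ H (x + 1) y ∧ ¬ H (x + 1) (y + 1)) := by
    by_cases h : L x y ∧ ¬ PL m n H x y
    · rw [ind_t h]
      obtain ⟨h1, h2⟩ := h
      by_contra hlt
      push Not at hlt
      apply h2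
      refine ⟨fun k hk => ?_, fun hk => ?_, fun k hk => ?_, fun hk => ?_⟩
      · by_contra h3
        rw [ind_t (show L x y ∧ ∃ k, y = k + 1 ∧ ¬ H x k from ⟨h1, k, hk, h3⟩)] at hlt
        linarith
      · by_contra h3
        rw [ind_t (show L x y ∧ y + 2 < n ∧ ¬ H x (y + 2) from ⟨h1, hk, h3⟩)] at hlt
        linarith
      · by_contra h3
        push Not at h3
        rw [ind_t (show L x y ∧ ∃ k, x = k + 1 ∧ ¬ H k y ∧ ¬ H k (y + 1) from
          ⟨h1, k, hk, h3⟩)] at hlt
        linarith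
      · by_contra h3
        push Not at h3
        rw [ind_t (show L x y ∧ x + 1 < m ∧ ¬ H (x + 1) y ∧ ¬ H (x + 1) (y + 1) from
          ⟨h1, hk, h3⟩)] at hlt
        linarith
    · rw [ind_f h]; linarith
  have k2 : ind (U x y ∧ ¬ PU m n H x y) ≤ ind (U x y ∧ ∃ k, x = k + 1 ∧ ¬ H k y) +
      ind (U x y ∧ x + 2 < m ∧ ¬ H (x + 2) y) +
      ind (U x y ∧ ∃ k, y = k + 1 ∧ ¬ H x k ∧ ¬ H (x + 1) k) +
      ind (U x y ∧ y + 1 < n ∧ ¬ H x (y + 1) ∧ ¬ H (x + 1) (y + 1)) := by
    by_cases h : U x y ∧ ¬ PU m n H x y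
    · rw [ind_t h]
      obtain ⟨h1, h2⟩ := h
      by_contra hlt
      push Not at hlt
      apply h2
      refine ⟨fun k hk => ?_, fun hk => ?_, fun k hk => ?_, fun hk => ?_⟩
      · by_contra h3
        rw [ind_t (show U x y ∧ ∃ k, x = k + 1 ∧ ¬ H k y from ⟨h1, k, hk, h3⟩)] at hlt
        linarith
      · by_contra h3
        rw [ind_t (show U x y ∧ x + 2 < m ∧ ¬ H (x + 2) y from ⟨h1, hk, h3⟩)] at hlt
        linarith
      · by_contra h3
        push Not at h3
        rw [ind_t (show U x y ∧ ∃ k, y = k + 1 ∧ ¬ H x k ∧ ¬ H (x + 1) k from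
          ⟨h1, k, hk, h3⟩)] at hlt
        linarith
      · by_contra h3
        push Not at h3
        rw [ind_t (show U x y ∧ y + 1 < n ∧ ¬ H x (y + 1) ∧ ¬ H (x + 1) (y + 1) from
          ⟨h1, hk, h3⟩)] at hlt
        linarith
    · rw [ind_f h]; linarith
  linarith

theorem Conf.half (c : Conf m n H L U) (hm : 0 < m) (hn0 : 0 < n) (hn : ¬ 3 ∣ n) (e : ℤ)
    (he : e = tot m n L + tot m n U - tot m n H) :
    (n : ℤ) * (m - 38 * e - 45) ≤ 3 * tot m n U := by
  have d1 := c.dtot_le hn0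
  have d2 := c.tr.dtot_le hm
  have q1 := Q_le (m := m) (n := n) (H := H) (L := L) (U := U)
  have q2 := Q_le (m := n) (n := m) (H := fun a b => H b a) (L := fun a b => U b a)
    (U := fun a b => L b a)
  have q3 := beta_sum_le (m := m) (n := n) (H := H) (L := L) (U := U)
  have x1 := tot_comm m n H
  have x2 := tot_comm m n L
  have x3 := tot_comm m n U
  have l0 := c.cntL0 hn
  have f1 : cnt m L 0 ≤ 16 * e + 19 := by linarith
  have f2 := c.col hn0
  have f3 := c.holes_le hn0
  have f4 := cntR0 (m := m) (L := L)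
  have f5 : (m : ℤ) - 32 * e - 39 ≤ 3 * cnt m U 0 := by linarith
  have f6 : ∀ j ∈ range n, ((m : ℤ) - 38 * e - 45) ≤ 3 * cnt m U j := by
    intro j hj
    have := c.cntU_ge j (Finset.mem_range.1 hj)
    linarith
  have f7 := Finset.sum_le_sum f6
  rw [Finset.sum_const, Finset.card_range, nsmul_eq_mul, ← Finset.mul_sum] at f7
  exact f7

/-- the main inequality -/
theorem Conf.main (c : Conf m n H L U) (hm : ¬ 3 ∣ m) (hn : ¬ 3 ∣ n) :
    (m * n : ℤ) ≤ (m + n) * (38 * (tot m n L + tot m n U - tot m n H) + 45) +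
      (tot m n L + tot m n U - tot m n H) := by
  have hm0 : 0 < m := Nat.pos_of_ne_zero (by rintro rfl; exact hm (dvd_zero _))
  have hn0 : 0 < n := Nat.pos_of_ne_zero (by rintro rfl; exact hn (dvd_zero _))
  set e := tot m n L + tot m n U - tot m n H with he
  have h1 := c.half hm0 hn0 hn e he
  have x1 := tot_comm m n H
  have x2 := tot_comm m n L
  have x3 := tot_comm m n U
  have h2 := c.tr.half hn0 hm0 hm e (by linarith)
  have h3 := c.cells
  have h4 : (m : ℤ) * (n - 38 * e - 45) ≤ 3 * tot m n L := by rw [x2]; exact h2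
  nlinarith

/-! ### The gunport problem -/

/-- two unit cells (given by row and column) share an edge -/
def Adj (a b : ℕ × ℕ) : Prop :=
  (a.1 = b.1 ∧ (b.2 = a.2 + 1 ∨ a.2 = b.2 + 1)) ∨ (a.2 = b.2 ∧ (b.1 = a.1 + 1 ∨ a.1 = b.1 + 1))

/-- the cells of the `m × n` board -/
def board (m n : ℕ) : Finset (ℕ × ℕ) := range m ×ˢ range n

/-- the cells of the board covered by no domino of `S` -/
def holes (m n : ℕ) (S : Finset (Finset (ℕ × ℕ))) : Finset (ℕ × ℕ) :=
  board m n \ S.biUnion id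

/-- `S` is a gunport configuration on the `m × n` board: a set of pairwise disjoint dominoes,
each covering two cells of the board that share an edge, such that no two holes share an edge -/
structure IsGunport (m n : ℕ) (S : Finset (Finset (ℕ × ℕ))) : Prop where
  domino : ∀ d ∈ S, ∃ a ∈ board m n, ∃ b ∈ board m n, Adj a b ∧ d = {a, b}
  disj : ∀ d ∈ S, ∀ d' ∈ S, d ≠ d' → Disjoint d d'
  isolated : ∀ a ∈ holes m n S, ∀ b ∈ holes m n S, ¬ Adj a b

/-- the maximum number of holes of a gunport configuration on the `m × n` board -/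
noncomputable def G (m n : ℕ) : ℕ :=
  sSup {h | ∃ S, IsGunport m n S ∧ (holes m n S).card = h}

section
variable {S : Finset (Finset (ℕ × ℕ))}

theorem uniq (hS : IsGunport m n S) {d d' : Finset (ℕ × ℕ)} (hd : d ∈ S) (hd' : d' ∈ S)
    {x : ℕ × ℕ} (hx : x ∈ d) (hx' : x ∈ d') : d = d' := by
  by_contra h
  exact Finset.disjoint_left.1 (hS.disj d hd d' hd' h) hx hx'

theorem in_board (hS : IsGunport m n S) {d : Finset (ℕ × ℕ)} (hd : d ∈ S)
    {x : ℕ × ℕ} (hx : x ∈ d) : x.1 < m ∧ x.2 < n := by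
  obtain ⟨a, ha, b, hb, _, rfl⟩ := hS.domino d hd
  rw [board, Finset.mem_product, Finset.mem_range, Finset.mem_range] at ha hb
  rcases Finset.mem_insert.1 hx with rfl | hx
  · exact ha
  · rw [Finset.mem_singleton.1 hx]; exact hb

theorem not_hole {d : Finset (ℕ × ℕ)} (hd : d ∈ S) {x : ℕ × ℕ} (hx : x ∈ d) :
    x ∉ holes m n S := by
  intro h
  rw [holes, Finset.mem_sdiff] at h
  exact h.2 (Finset.mem_biUnion.2 ⟨d, hd, hx⟩)

theorem toConf (hS : IsGunport m n S) :
    Conf m n (fun i j => (i, j) ∈ holes m n S)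
      (fun i j => ({(i, j), (i, j + 1)} : Finset (ℕ × ℕ)) ∈ S)
      (fun i j => ({(i, j), (i + 1, j)} : Finset (ℕ × ℕ)) ∈ S) where
  hH i j h := by
    rw [holes, Finset.mem_sdiff, board, Finset.mem_product, Finset.mem_range,
      Finset.mem_range] at h
    exact h.1
  hL i j h := by
    have h1 := in_board hS h (x := (i, j + 1)) (by simp)
    exact h1
  hU i j h := by
    have h1 := in_board hS h (x := (i + 1, j)) (by simp)
    exact h1
  cover i j hi hj := by
    by_cases hx : (i, j) ∈ S.biUnion id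
    · obtain ⟨d, hd, hxd⟩ := Finset.mem_biUnion.1 hx
      simp only [id] at hxd
      obtain ⟨a, ha, b, hb, hab, rfl⟩ := hS.domino d hd
      obtain ⟨a1, a2⟩ := a
      obtain ⟨b1, b2⟩ := b
      rw [Finset.mem_insert, Finset.mem_singleton, Prod.mk.injEq, Prod.mk.injEq] at hxd
      rcases hab with ⟨e, h | h⟩ | ⟨e, h | h⟩ <;> simp only at e h <;> subst h <;>
        try subst e
      · rcases hxd with ⟨h1, h2⟩ | ⟨h1, h2⟩
        · subst h1; subst h2; exact Or.inr (Or.inl hd)
        · subst h1; subst h2; exact Or.inr (Or.inr (Or.inl ⟨a2, rfl, hd⟩))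
      · rw [Finset.pair_comm] at hd
        rcases hxd with ⟨h1, h2⟩ | ⟨h1, h2⟩
        · subst h1; subst h2; exact Or.inr (Or.inr (Or.inl ⟨b2, rfl, hd⟩))
        · subst h1; subst h2; exact Or.inr (Or.inl hd)
      · rcases hxd with ⟨h1, h2⟩ | ⟨h1, h2⟩
        · subst h1; subst h2; exact Or.inr (Or.inr (Or.inr (Or.inl hd)))
        · subst h1; subst h2; exact Or.inr (Or.inr (Or.inr (Or.inr ⟨a1, rfl, hd⟩)))
      · rw [Finset.pair_comm] at hd
        rcases hxd with ⟨h1, h2⟩ | ⟨h1, h2⟩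
        · subst h1; subst h2; exact Or.inr (Or.inr (Or.inr (Or.inr ⟨b1, rfl, hd⟩)))
        · subst h1; subst h2; exact Or.inr (Or.inr (Or.inr (Or.inl hd)))
    · left
      rw [holes, Finset.mem_sdiff, board, Finset.mem_product, Finset.mem_range,
        Finset.mem_range]
      exact ⟨⟨hi, hj⟩, hx⟩
  HL i j h h' := not_hole h' (x := (i, j)) (by simp) h
  HR i j h h' := not_hole h' (x := (i, j + 1)) (by simp) h
  HU i j h h' := not_hole h' (x := (i, j)) (by simp) h
  HB i j h h' := not_hole h' (x := (i + 1, j)) (by simp) h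
  LL i j h h' := by
    have e := uniq hS h h' (x := (i, j + 1)) (by simp) (by simp)
    have : (i, j) ∈ ({(i, j + 1), (i, j + 1 + 1)} : Finset (ℕ × ℕ)) := by rw [← e]; simp
    simp at this
    omega
  UU i j h h' := by
    have e := uniq hS h h' (x := (i + 1, j)) (by simp) (by simp)
    have : (i, j) ∈ ({(i + 1, j), (i + 1 + 1, j)} : Finset (ℕ × ℕ)) := by rw [← e]; simp
    simp at this
    omega
  LU1 i j h h' := by
    have e := uniq hS h h' (x := (i, j)) (by simp) (by simp)
    have : (i, j + 1) ∈ ({(i, j), (i + 1, j)} : Finset (ℕ × ℕ)) := by rw [← e]; simp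
    simp at this
  LU2 i j h h' := by
    have e := uniq hS h h' (x := (i, j + 1)) (by simp) (by simp)
    have : (i, j) ∈ ({(i, j + 1), (i + 1, j + 1)} : Finset (ℕ × ℕ)) := by rw [← e]; simp
    simp at this
  LU3 i j h h' := by
    have e := uniq hS h h' (x := (i + 1, j)) (by simp) (by simp)
    have : (i + 1, j + 1) ∈ ({(i, j), (i + 1, j)} : Finset (ℕ × ℕ)) := by rw [← e]; simp
    simp at this
  LU4 i j h h' := by
    have e := uniq hS h h' (x := (i + 1, j + 1)) (by simp) (by simp)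
    have : (i + 1, j) ∈ ({(i, j + 1), (i + 1, j + 1)} : Finset (ℕ × ℕ)) := by rw [← e]; simp
    simp at this
  HH1 i j h h' := hS.isolated _ h _ h' (Or.inl ⟨rfl, Or.inl rfl⟩)
  HH2 i j h h' := hS.isolated _ h _ h' (Or.inr ⟨rfl, Or.inl rfl⟩)

theorem card_holes : ((holes m n S).card : ℤ) = tot m n (fun i j => (i, j) ∈ holes m n S) := by
  classical
  have h1 : holes m n S = (board m n).filter (fun x => x ∈ holes m n S) := by
    ext x
    rw [Finset.mem_filter]
    constructor
    · intro h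
      exact ⟨(Finset.mem_sdiff.1 h).1, h⟩
    · intro h; exact h.2
  have h2 : ((holes m n S).card : ℤ) = ∑ x ∈ board m n, ind (x ∈ holes m n S) := by
    conv_lhs => rw [h1]
    rw [Finset.card_filter]
    push_cast
    refine Finset.sum_congr rfl fun x _ => ?_
    by_cases hx : x ∈ holes m n S
    · rw [ind_t hx, if_pos hx]
    · rw [ind_f hx, if_neg hx]
  rw [h2, board, Finset.sum_product, tot_comm]
  rfl

/-- the inequality for the number of holes of one configuration -/
theorem ineq (hS : IsGunport m n S) (hm : ¬ 3 ∣ m) (hn : ¬ 3 ∣ n) :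
    2 * (m * n : ℤ) ≤ (m + n) * (38 * (m * n - 3 * (holes m n S).card) + 90) +
      (m * n - 3 * (holes m n S).card) := by
  have c := toConf hS
  have h1 := c.main hm hn
  have h2 := c.cells
  rw [card_holes]
  set a := tot m n (fun i j => (i, j) ∈ holes m n S)
  set b := tot m n (fun i j => ({(i, j), (i, j + 1)} : Finset (ℕ × ℕ)) ∈ S)
  set d := tot m n (fun i j => ({(i, j), (i + 1, j)} : Finset (ℕ × ℕ)) ∈ S)
  have h3 : (m * n : ℤ) - 3 * a = 2 * (b + d - a) := by linarith
  rw [h3]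
  nlinarith

end

/-- every board has a gunport configuration -/
theorem exists_gunport (m n : ℕ) : ∃ S, IsGunport m n S := by
  classical
  let A : Finset (Finset (ℕ × ℕ)) := (board m n).powerset
  let P : Finset (Finset (Finset (ℕ × ℕ))) := A.powerset.filter (fun S =>
    (∀ d ∈ S, ∃ a ∈ board m n, ∃ b ∈ board m n, Adj a b ∧ d = {a, b}) ∧
    (∀ d ∈ S, ∀ d' ∈ S, d ≠ d' → Disjoint d d'))
  have hne : P.Nonempty := ⟨∅, by simp [P]⟩
  obtain ⟨S, hS, hmax⟩ := Finset.exists_max_image P Finset.card hne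
  rw [Finset.mem_filter, Finset.mem_powerset] at hS
  obtain ⟨hSA, h1, h2⟩ := hS
  refine ⟨S, h1, h2, ?_⟩
  intro a ha b hb hab
  rw [holes, Finset.mem_sdiff] at ha hb
  have hfresh : ∀ d ∈ S, Disjoint ({a, b} : Finset (ℕ × ℕ)) d := by
    intro d hd
    rw [Finset.disjoint_left]
    intro x hx hxd
    rcases Finset.mem_insert.1 hx with rfl | hx
    · exact ha.2 (Finset.mem_biUnion.2 ⟨d, hd, hxd⟩)
    · rw [Finset.mem_singleton.1 hx] at hxd
      exact hb.2 (Finset.mem_biUnion.2 ⟨d, hd, hxd⟩)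
  have hnew : ({a, b} : Finset (ℕ × ℕ)) ∉ S := by
    intro h
    have := hfresh _ h
    rw [Finset.disjoint_left] at this
    exact this (Finset.mem_insert_self a _) (Finset.mem_insert_self a _)
  have hP : insert ({a, b} : Finset (ℕ × ℕ)) S ∈ P := by
    rw [Finset.mem_filter, Finset.mem_powerset]
    refine ⟨?_, ?_, ?_⟩
    · intro d hd
      rcases Finset.mem_insert.1 hd with rfl | hd
      · rw [Finset.mem_powerset]
        intro x hx
        rcases Finset.mem_insert.1 hx with rfl | hx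
        · exact ha.1
        · rw [Finset.mem_singleton.1 hx]; exact hb.1
      · exact hSA hd
    · intro d hd
      rcases Finset.mem_insert.1 hd with rfl | hd
      · exact ⟨a, ha.1, b, hb.1, hab, rfl⟩
      · exact h1 d hd
    · intro d hd d' hd' hne'
      rcases Finset.mem_insert.1 hd with rfl | hd
      · rcases Finset.mem_insert.1 hd' with rfl | hd'
        · exact absurd rfl hne'
        · exact hfresh d' hd'
      · rcases Finset.mem_insert.1 hd' with rfl | hd'
        · exact (hfresh d hd).symm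
        · exact h2 d hd d' hd' hne'
  have := hmax _ hP
  rw [Finset.card_insert_of_notMem hnew] at this
  omega

/-- the maximum is attained -/
theorem G_attained (m n : ℕ) : ∃ S, IsGunport m n S ∧ (holes m n S).card = G m n := by
  have hb : BddAbove {h | ∃ S, IsGunport m n S ∧ (holes m n S).card = h} := by
    refine ⟨(board m n).card, ?_⟩
    rintro h ⟨S, _, rfl⟩
    exact Finset.card_le_card Finset.sdiff_subset
  obtain ⟨S, hS⟩ := exists_gunport m n
  have hne : {h | ∃ S, IsGunport m n S ∧ (holes m n S).card = h}.Nonempty := ⟨_, S, hS, rfl⟩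
  exact Nat.sSup_mem hne hb

/-- **Pearce's formula fails.** (1) If `3` divides neither `m` nor `n`, then with
`t = mn - 3 G(m,n)` one has `2mn ≤ (m+n)(38t+90) + t`; so `mn/3 - G(m,n)` tends to infinity
with `min(m,n)`, at least linearly. (2) For all `m, n ≥ 243` not divisible by `3` one has
`3 G(m,n) + 4 < mn`, so Pearce's formula is false there. (3) Hence Q1 has a negative answer. -/
theorem result :
    (∀ m n : ℕ, ¬ 3 ∣ m → ¬ 3 ∣ n →
      2 * (m * n : ℤ) ≤ (m + n) * (38 * (m * n - 3 * G m n) + 90) + (m * n - 3 * G m n)) ∧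
    (∀ m n : ℕ, 243 ≤ m → 243 ≤ n → ¬ 3 ∣ m → ¬ 3 ∣ n → 3 * G m n + 4 < m * n) ∧
    ¬ (∀ m n : ℕ, 2 ≤ m → 2 ≤ n → ¬ 3 ∣ m → ¬ 3 ∣ n →
      G m n = if m % 3 = n % 3 then (m * n - 4) / 3 else (m * n - 2) / 3) := by
  have p1 : ∀ m n : ℕ, ¬ 3 ∣ m → ¬ 3 ∣ n →
      2 * (m * n : ℤ) ≤ (m + n) * (38 * (m * n - 3 * G m n) + 90) + (m * n - 3 * G m n) := by
    intro m n hm hn
    obtain ⟨S, hS, hc⟩ := G_attained m n
    have := ineq hS hm hn
    rw [hc] at this
    exact this
  have p2 : ∀ m n : ℕ, 243 ≤ m → 243 ≤ n → ¬ 3 ∣ m → ¬ 3 ∣ n → 3 * G m n + 4 < m * n := by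
    intro m n hm hn h3m h3n
    by_contra hlt
    push Not at hlt
    have h1 := p1 m n h3m h3n
    have h2 : (m * n : ℤ) - 3 * G m n ≤ 4 := by
      have : ((m * n : ℕ) : ℤ) ≤ ((3 * G m n + 4 : ℕ) : ℤ) := by exact_mod_cast hlt
      push_cast at this
      linarith
    have h3 : (243 : ℤ) ≤ m := by exact_mod_cast hm
    have h4 : (243 : ℤ) ≤ n := by exact_mod_cast hn
    nlinarith
  refine ⟨p1, p2, fun h => ?_⟩
  have h1 := h 244 244 (by norm_num) (by norm_num) (by norm_num) (by norm_num)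
  have h2 := p2 244 244 (by norm_num) (by norm_num) (by norm_num) (by norm_num)
  rw [if_pos rfl] at h1
  rw [h1] at h2
  norm_num at h2

end Pool.Agent.Results.MP_290120_co.PearceFails
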